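import Pool.Agent.EDX.Stmts3

/-!
# EDX row MVP: mean value inequality on a disc
-/

set_option autoImplicit false

namespace Pool.Agent.EDX.H81

open MeasureTheory

/-- the circle mean -/
theorem circle_mean {G : ℂ → ℂ} (hG : DifferentiableOn ℂ G (Metric.ball 4 1)) {r : ℝ}
    (h0 : 0 < r) (h1 : r < 1 / 2) :
    ∫ θ in Set.Ioo (-Real.pi) Real.pi, (G (circleMap 4 r θ)) ^ 2 =
      (2 * Real.pi : ℂ) * G 4 ^ 2 := by
  have hd : DiffContOnCl ℂ (fun z => G z ^ 2) (Metric.ball 4 |r|) := by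
    refine DifferentiableOn.diffContOnCl ?_
    refine (hG.pow 2).mono ?_
    refine Metric.closure_ball_subset_closedBall.trans ?_
    rw [abs_of_pos h0]
    exact Metric.closedBall_subset_ball (by linarith)
  have h2 := hd.circleAverage
  rw [Real.circleAverage_eq_integral_add (-Real.pi),
    intervalIntegral.integral_comp_add_right (fun θ => (G (circleMap 4 r θ)) ^ 2)] at h2
  have e1 : 0 + -Real.pi = -Real.pi := by ring
  have e2 : 2 * Real.pi + -Real.pi = Real.pi := by ring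
  rw [e1, e2, intervalIntegral.integral_of_le (by linarith [Real.pi_pos]),
    integral_Ioc_eq_integral_Ioo] at h2
  rw [← h2, Complex.real_smul]
  have hpi : (Real.pi : ℂ) ≠ 0 := by exact_mod_cast Real.pi_ne_zero
  push_cast
  field_simp

theorem inner_bound {G : ℂ → ℂ} (hG : DifferentiableOn ℂ G (Metric.ball 4 1)) {r : ℝ}
    (h0 : 0 < r) (h1 : r < 1 / 2) :
    ENNReal.ofReal (2 * Real.pi * ‖G 4‖ ^ 2) ≤
      ∫⁻ θ in Set.Ioo (-Real.pi) Real.pi, ENNReal.ofReal (‖G (circleMap 4 r θ)‖ ^ 2) := by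
  have h2 := enorm_integral_le_lintegral_enorm (μ := volume.restrict (Set.Ioo (-Real.pi) Real.pi))
    (fun θ : ℝ => (G (circleMap 4 r θ)) ^ 2)
  rw [circle_mean hG h0 h1] at h2
  have h3 : ‖(2 * Real.pi : ℂ) * G 4 ^ 2‖ₑ = ENNReal.ofReal (2 * Real.pi * ‖G 4‖ ^ 2) := by
    rw [← ofReal_norm, norm_mul, norm_pow, norm_mul, Complex.norm_real,
      Real.norm_of_nonneg Real.pi_pos.le, Complex.norm_two]
  rw [h3] at h2
  refine h2.trans (le_of_eq ?_)
  refine lintegral_congr fun θ => ?_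
  rw [← ofReal_norm, norm_pow]

theorem mvp_meas {G : ℂ → ℂ} (hG : DifferentiableOn ℂ G (Metric.ball 4 1)) (hm : Measurable G) :
    ENNReal.ofReal (‖G 4‖ ^ 2 * (Real.pi / 4)) ≤
      ∫⁻ w in Metric.ball (4 : ℂ) (1 / 2), ENNReal.ofReal (‖G w‖ ^ 2) := by
  set F : ℂ → ENNReal := (Metric.ball (4 : ℂ) (1 / 2)).indicator
    (fun w => ENNReal.ofReal (‖G w‖ ^ 2)) with hF
  have hFm : Measurable F :=
    Measurable.indicator (ENNReal.measurable_ofReal.comp (hm.norm.pow_const 2))
      Metric.isOpen_ball.measurableSet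
  have e1 : ∫⁻ w in Metric.ball (4 : ℂ) (1 / 2), ENNReal.ofReal (‖G w‖ ^ 2) = ∫⁻ w, F w := by
    rw [hF, lintegral_indicator Metric.isOpen_ball.measurableSet]
  have e2 : ∫⁻ w, F w = ∫⁻ u, F (4 + u) := (lintegral_add_left_eq_self F 4).symm
  have hmeas : Measurable (fun p : ℝ × ℝ => ENNReal.ofReal p.1 •
      F (4 + Complex.polarCoord.symm p)) := by
    have h1 : Measurable (fun p : ℝ × ℝ => (4 : ℂ) + Complex.polarCoord.symm p) := by
      simp only [Complex.polarCoord_symm_apply]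
      fun_prop
    exact (ENNReal.measurable_ofReal.comp measurable_fst).smul (hFm.comp h1)
  have e3 : ∫⁻ u, F (4 + u) = ∫⁻ r in Set.Ioi (0 : ℝ), ∫⁻ θ in Set.Ioo (-Real.pi) Real.pi,
      ENNReal.ofReal r • F (4 + Complex.polarCoord.symm (r, θ)) := by
    rw [← Complex.lintegral_comp_polarCoord_symm (fun u => F (4 + u)), polarCoord_target,
      Measure.volume_eq_prod, setLIntegral_prod _ hmeas.aemeasurable]
  rw [e1, e2, e3]
  have e4 : ∫⁻ r in Set.Ioo (0 : ℝ) (1 / 2), ENNReal.ofReal (r * (2 * Real.pi * ‖G 4‖ ^ 2)) ≤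
      ∫⁻ r in Set.Ioo (0 : ℝ) (1 / 2), ∫⁻ θ in Set.Ioo (-Real.pi) Real.pi,
      ENNReal.ofReal r • F (4 + Complex.polarCoord.symm (r, θ)) := by
    refine setLIntegral_mono' measurableSet_Ioo fun r hr => ?_
    obtain ⟨h0, h1⟩ := hr
    have h2 : ∀ θ : ℝ, ENNReal.ofReal r • F (4 + Complex.polarCoord.symm (r, θ)) =
        ENNReal.ofReal r * ENNReal.ofReal (‖G (circleMap 4 r θ)‖ ^ 2) := by
      intro θ
      have h3 : 4 + Complex.polarCoord.symm (r, θ) = circleMap 4 r θ := by
        rw [Complex.polarCoord_symm_apply, circleMap, Complex.exp_mul_I, Complex.ofReal_cos,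
          Complex.ofReal_sin]
      rw [h3, smul_eq_mul, hF, Set.indicator_of_mem]
      rw [Metric.mem_ball, dist_eq_norm, circleMap_sub_center, norm_circleMap_zero,
        abs_of_pos h0]
      exact h1
    simp only [h2]
    rw [lintegral_const_mul' _ _ ENNReal.ofReal_ne_top, ENNReal.ofReal_mul h0.le]
    gcongr
    exact inner_bound hG h0 h1
  refine le_trans (le_trans ?_ e4) (lintegral_mono_set Set.Ioo_subset_Ioi_self)
  have h5 : IntegrableOn (fun r : ℝ => r * (2 * Real.pi * ‖G 4‖ ^ 2)) (Set.Ioo 0 (1 / 2)) := by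
    have h6 : Continuous (fun r : ℝ => r * (2 * Real.pi * ‖G 4‖ ^ 2)) := by fun_prop
    exact (h6.integrableOn_Icc (a := 0) (b := 1 / 2)).mono_set Set.Ioo_subset_Icc_self
  rw [← ofReal_integral_eq_lintegral_ofReal h5]
  · refine ENNReal.ofReal_le_ofReal (le_of_eq ?_)
    rw [← integral_Ioc_eq_integral_Ioo, ← intervalIntegral.integral_of_le (by norm_num),
      intervalIntegral.integral_mul_const, integral_id]
    ring
  · refine (ae_restrict_iff' measurableSet_Ioo).2 (Filter.Eventually.of_forall fun r hr => ?_)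
    have := hr.1
    show 0 ≤ r * (2 * Real.pi * ‖G 4‖ ^ 2)
    positivity

theorem mvp : MvpStmt := by
  intro G hG
  classical
  set G' : ℂ → ℂ := (Metric.ball (4 : ℂ) 1).piecewise G 0 with hG'
  have heq : ∀ w ∈ Metric.ball (4 : ℂ) 1, G' w = G w := fun w hw =>
    Set.piecewise_eq_of_mem _ _ _ hw
  have hm : Measurable G' :=
    ContinuousOn.measurable_piecewise hG.continuousOn continuousOn_const
      Metric.isOpen_ball.measurableSet
  have hd : DifferentiableOn ℂ G' (Metric.ball 4 1) := hG.congr heq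
  have h1 := mvp_meas hd hm
  rw [heq 4 (Metric.mem_ball_self one_pos)] at h1
  refine h1.trans (le_of_eq ?_)
  refine setLIntegral_congr_fun Metric.isOpen_ball.measurableSet fun w hw => ?_
  rw [heq w (Metric.ball_subset_ball (by norm_num) hw)]

end Pool.Agent.EDX.H81
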